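import Pool.Agent.Run7.h520.AX.WDV

/-! Project AX, piece RS3. -/

set_option autoImplicit false

open MeasureTheory Set Filter Topology
open scoped ENNReal ContDiff FourierTransform

namespace Pool.Agent.Run7.h520.AX

open Pool.Agent.Run7.h148.AX

theorem mem_Tc {ν : ℝ} {p q : ℤ} {l j : ℕ} {k : ℤ} {ρ : E3 → ℝ} (h : q ≤ p) (hj : 1 ≤ j)
    (hρ : Cc ρ) : Tc ν q l j k ρ ∈ OO ν p :=
  Submodule.subset_span ⟨q, l, j, k, ρ, h, hj, hρ, Or.inl rfl⟩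

theorem mem_Ts {ν : ℝ} {p q : ℤ} {l j : ℕ} {k : ℤ} {ρ : E3 → ℝ} (h : q ≤ p) (hj : 1 ≤ j)
    (hρ : Cc ρ) : Ts ν q l j k ρ ∈ OO ν p :=
  Submodule.subset_span ⟨q, l, j, k, ρ, h, hj, hρ, Or.inr rfl⟩

theorem Cc_A {A : E3 → E3} (hA : Adm A) (k : Fin 3) : Cc fun x => A x k :=
  ⟨cd_A hA.1 k, cs_A hA.2.1 k⟩

theorem Cc_pd {f : E3 → ℝ} (hf : Cc f) (j : Fin 3) : Cc (pd j f) := ⟨cd_pd hf.1 j, cs_pd hf.2 j⟩

theorem Cc_dvA {A : E3 → E3} (hA : Adm A) : Cc (dvA A) := by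
  refine ⟨cd_dvA hA.1, ?_⟩
  have e : dvA A = fun x => pd 0 (fun y => A y 0) x + pd 1 (fun y => A y 1) x
      + pd 2 (fun y => A y 2) x := by
    funext x; unfold dvA; rw [Fin.sum_univ_three]
  rw [e]
  exact ((cs_pd (cs_A hA.2.1 0) 0).add (cs_pd (cs_A hA.2.1 1) 1)).add (cs_pd (cs_A hA.2.1 2) 2)

theorem Cc_FA {A : E3 → E3} (hA : Adm A) (k : Fin 3) : Cc (FA A k) :=
  ⟨cd_FA hA.1 k, cs_FA hA.2.1 k⟩

/-- The wave up to order zero. -/
theorem wave0 (h1 : S_OC1) (hW : S_WST) {ν : ℝ} {A V : E3 → E3} (hν : 0 < ν) (hA : Adm A)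
    (hV : ContDiff ℝ ∞ V) (k : Fin 3) :
    ww ν A V k - Tc ν 1 0 1 1 (fun x => A x k) ∈ OO ν 0 := by
  have h := h1.1 ν (-1) 0 (by norm_num) (hW ν A V hν hA hV k)
  have m1 : Ts ν 0 1 1 1 (pd 2 fun y => A y k) ∈ OO ν 0 :=
    mem_Ts le_rfl le_rfl (Cc_pd (Cc_A hA k) 2)
  have m2 : Ts ν 0 0 3 1 (fun x => V x 2 * A x k) ∈ OO ν 0 :=
    mem_Ts le_rfl (by norm_num) ⟨(cd_A hV 2).mul (cd_A hA.1 k), (cs_A hA.2.1 k).mul_left⟩
  have m3 : Tc ν 0 0 2 2 (FA A k) ∈ OO ν 0 := mem_Tc le_rfl (by norm_num) (Cc_FA hA k)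
  have m4 : Ts ν 0 0 1 1 (fun x => pd 2 (fun y => A y k) x - if k = 2 then dvA A x else 0)
      ∈ OO ν 0 := by
    apply mem_Ts le_rfl le_rfl
    by_cases hk : k = 2
    · simp only [hk, if_true]
      exact ⟨(cd_pd (cd_A hA.1 2) 2).sub (Cc_dvA hA).1,
        (cs_pd (cs_A hA.2.1 2) 2).sub (Cc_dvA hA).2⟩
    · simp only [hk, if_false, sub_zero]
      exact Cc_pd (Cc_A hA k) 2
  have e : ww ν A V k - Tc ν 1 0 1 1 (fun x => A x k)
      = (ww ν A V k - Tc ν 1 0 1 1 (fun x => A x k) + (2 : ℝ) • Ts ν 0 1 1 1 (pd 2 fun y => A y k)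
    + (1 / (2 * ν)) • Ts ν 0 0 3 1 (fun x => V x 2 * A x k)
    + (1 / (4 * ν)) • Tc ν 0 0 2 2 (FA A k)
    - Ts ν 0 0 1 1 (fun x => pd 2 (fun y => A y k) x - if k = 2 then dvA A x else 0))
      - (2 : ℝ) • Ts ν 0 1 1 1 (pd 2 fun y => A y k)
      - (1 / (2 * ν)) • Ts ν 0 0 3 1 (fun x => V x 2 * A x k)
      - (1 / (4 * ν)) • Tc ν 0 0 2 2 (FA A k)
      + Ts ν 0 0 1 1 (fun x => pd 2 (fun y => A y k) x - if k = 2 then dvA A x else 0) := by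
    abel
  rw [e]
  exact Submodule.add_mem _ (Submodule.sub_mem _ (Submodule.sub_mem _ (Submodule.sub_mem _ h
    (Submodule.smul_mem _ _ m1)) (Submodule.smul_mem _ _ m2)) (Submodule.smul_mem _ _ m3)) m4

/-- The vertical component of the wave. -/
theorem wave2 (hW : S_WST) {ν : ℝ} {A V : E3 → E3} (hν : 0 < ν) (hA : Adm A)
    (hV : ContDiff ℝ ∞ V) :
    ww ν A V 2 + Ts ν 0 0 1 1 (dvA A) ∈ OO ν (-1) := by
  have h := hW ν A V hν hA hV 2
  have z : (fun y => A y 2) = fun _ => (0 : ℝ) := funext hA.2.2.1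
  have e : ww ν A V 2 + Ts ν 0 0 1 1 (dvA A)
      = ww ν A V 2 - Tc ν 1 0 1 1 (fun x => A x 2) + (2 : ℝ) • Ts ν 0 1 1 1 (pd 2 fun y => A y 2)
    + (1 / (2 * ν)) • Ts ν 0 0 3 1 (fun x => V x 2 * A x 2)
    + (1 / (4 * ν)) • Tc ν 0 0 2 2 (FA A 2)
    - Ts ν 0 0 1 1 (fun x => pd 2 (fun y => A y 2) x - if (2 : Fin 3) = 2 then dvA A x else 0) := by
    funext n t x
    simp only [Pi.add_apply, Pi.sub_apply, Pi.smul_apply, Tc, Ts, smul_eq_mul, if_true, z, pd_zero,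
      FA2 hA.2.2.1, hA.2.2.1]
    ring
  rw [e]
  exact h

theorem t_RS3 : S_OC1 → S_OC2 → S_WST → S_RS3 := by
  intro h1 h2 hW ν A V hν hA hV k
  have r0 := wave0 h1 hW hν hA hV 0
  have r1 := wave0 h1 hW hν hA hV 1
  have rk := wave0 h1 hW hν hA hV k
  have s2 := wave2 hW hν hA hV
  have tj : ∀ j, Tc ν 1 0 1 1 (fun x => A x j) ∈ OO ν 1 := fun j =>
    mem_Tc le_rfl le_rfl (Cc_A hA j)
  have wk1 : ww ν A V k ∈ OO ν 1 := by
    have e : ww ν A V k = (ww ν A V k - Tc ν 1 0 1 1 (fun x => A x k))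
        + Tc ν 1 0 1 1 (fun x => A x k) := by abel
    rw [e]
    exact Submodule.add_mem _ (h1.1 ν 0 1 (by norm_num) rk) (tj k)
  obtain ⟨-, -, dw0, dw1, dw2, -⟩ := h2 ν 1 _ wk1
  obtain ⟨-, cR, dr0, dr1, dr2, -⟩ := h2 ν 0 _ rk
  obtain ⟨-, cT, -, -, -, -⟩ := h2 ν 1 _ (tj k)
  have D0 : Ts ν 0 0 1 1 (dvA A) ∈ OO ν 0 := mem_Ts le_rfl le_rfl (Cc_dvA hA)
  have P2 : Tc ν 1 0 1 1 (pd 2 fun x => A x k) ∈ OO ν 1 :=
    mem_Tc le_rfl le_rfl (Cc_pd (Cc_A hA k) 2)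
  have e : ((fun n t x => (∑ j, ww ν A V j n t x * dx j (ww ν A V k) n t x)
      - NN n ^ 2 / 2 * Real.exp (-(2 * ta ν n t)) * (∑ j, pd j (fun y => A y j * A y k) x))
    - (1 / 2 : ℝ) • Tc ν 2 0 2 2 (FA A k))
    = Tc ν 1 0 1 1 (fun x => A x 0) * dx 0 (ww ν A V k - Tc ν 1 0 1 1 (fun x => A x k))
      + (ww ν A V 0 - Tc ν 1 0 1 1 (fun x => A x 0)) * dx 0 (ww ν A V k)
      + Tc ν 1 0 1 1 (fun x => A x 1) * dx 1 (ww ν A V k - Tc ν 1 0 1 1 (fun x => A x k))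
      + (ww ν A V 1 - Tc ν 1 0 1 1 (fun x => A x 1)) * dx 1 (ww ν A V k)
      + (ww ν A V 2 + Ts ν 0 0 1 1 (dvA A)) * dx 2 (ww ν A V k)
      - Ts ν 0 0 1 1 (dvA A) * dx 2 (ww ν A V k - Tc ν 1 0 1 1 (fun x => A x k))
      - Ts ν 0 0 1 1 (dvA A) * Tc ν 1 0 1 1 (pd 2 fun x => A x k) := by
    funext n t x
    have hsplit : ∀ j, dx j (ww ν A V k) n t x = pd j (Tc ν 1 0 1 1 (fun x => A x k) n t) x
        + dx j (ww ν A V k - Tc ν 1 0 1 1 (fun x => A x k)) n t x := by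
      intro j
      have e1 : ww ν A V k n t = fun y => Tc ν 1 0 1 1 (fun x => A x k) n t y
          + (ww ν A V k - Tc ν 1 0 1 1 (fun x => A x k)) n t y := by
        funext y
        simp
      unfold dx
      rw [← pd_add (cT n t).1 (cR n t).1, ← e1]
    have hT : Tc ν 1 0 1 1 (fun x => A x k) n t = fun y => NN n * Real.exp (-ta ν n t)
        * (A y k * Real.cos (NN n * y 2)) := by
      funext y
      simp [Tc]
      ring
    have hTd : ∀ j, pd j (Tc ν 1 0 1 1 (fun x => A x k) n t) x = NN n * Real.exp (-ta ν n t)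
        * (pd j (fun y => A y k) x * Real.cos (NN n * x 2)
          + A x k * (if j = 2 then -(NN n * Real.sin (NN n * x 2)) else 0)) := by
      intro j
      rw [hT, pd_cmul ((cd_A hA.1 k).mul (cd_cos _)), pd_mul (cd_A hA.1 k) (cd_cos _), pd_cos]
    have hpp : ∀ j, pd j (fun y => A y j * A y k) x = pd j (fun y => A y j) x * A x k
        + A x j * pd j (fun y => A y k) x := fun j => pd_mul (cd_A hA.1 j) (cd_A hA.1 k) j x
    have h02 : (0 : Fin 3) ≠ 2 := by decide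
    have h12 : (1 : Fin 3) ≠ 2 := by decide
    have z : (fun y => A y 2) = fun _ => (0 : ℝ) := funext hA.2.2.1
    have hd : dvA A x = pd 0 (fun y => A y 0) x + pd 1 (fun y => A y 1) x := by
      unfold dvA
      rw [Fin.sum_univ_three, z, pd_zero, add_zero]
    have hF : FA A k x = A x 0 * pd 0 (fun y => A y k) x + A x 1 * pd 1 (fun y => A y k) x
        - dvA A x * A x k := by
      unfold FA
      rw [Fin.sum_univ_three, hA.2.2.1]
      ring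
    have c2 : Real.cos (2 * NN n * x 2) = 2 * Real.cos (NN n * x 2) ^ 2 - 1 := by
      rw [show 2 * NN n * x 2 = 2 * (NN n * x 2) by ring, Real.cos_two_mul]
    have s1 : Real.sin (NN n * x 2) ^ 2 = 1 - Real.cos (NN n * x 2) ^ 2 := by
      have := Real.sin_sq_add_cos_sq (NN n * x 2)
      linarith
    have ee : Real.exp (-(2 * ta ν n t)) = Real.exp (-ta ν n t) ^ 2 := by
      rw [← Real.exp_nat_mul]
      congr 1
      push_cast
      ring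
    simp only [Pi.sub_apply, Pi.add_apply, Pi.mul_apply, Pi.smul_apply, smul_eq_mul,
      Fin.sum_univ_three, hpp]
    rw [hsplit 0, hsplit 1, hsplit 2, hTd 0, hTd 1, hTd 2]
    simp only [h02, h12, if_false, if_true, z, pd_zero, hA.2.2.1]
    simp only [Tc, Ts, hF, hd, zpow_one, zpow_zero, pow_zero, Nat.cast_one, Int.cast_one,
      one_mul, mul_one, Nat.cast_ofNat, Int.cast_ofNat, c2, ee]
    have z2 : NN n ^ (2 : ℤ) = NN n ^ 2 := by norm_cast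
    rw [z2]
    generalize dx 0 (ww ν A V k - Tc ν 1 0 1 1 (fun x => A x k)) n t x = q0
    generalize dx 1 (ww ν A V k - Tc ν 1 0 1 1 (fun x => A x k)) n t x = q1
    generalize dx 2 (ww ν A V k - Tc ν 1 0 1 1 (fun x => A x k)) n t x = q2
    linear_combination (Real.exp (-ta ν n t) ^ 2 * NN n ^ 2 * A x k *
      (pd 0 (fun y => A y 0) x + pd 1 (fun y => A y 1) x)) * s1
  rw [e]
  have m : ∀ (p q r : ℤ) (f g : Fam), p + q = r → f ∈ OO ν p → g ∈ OO ν q → f * g ∈ OO ν r := by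
    intro p q r f g h hf hg
    rw [← h]
    exact h1.2 ν p q f g hf hg
  refine Submodule.sub_mem _ (Submodule.sub_mem _ (Submodule.add_mem _ (Submodule.add_mem _
    (Submodule.add_mem _ (Submodule.add_mem _ ?_ ?_) ?_) ?_) ?_) ?_) ?_
  · exact m 1 0 1 _ _ (by norm_num) (tj 0) dr0
  · exact m 0 1 1 _ _ (by norm_num) r0 dw0
  · exact m 1 0 1 _ _ (by norm_num) (tj 1) dr1
  · exact m 0 1 1 _ _ (by norm_num) r1 dw1
  · exact m (-1) (1 + 1) 1 _ _ (by norm_num) s2 dw2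
  · exact m 0 (0 + 1) 1 _ _ (by norm_num) D0 dr2
  · exact m 0 1 1 _ _ (by norm_num) D0 P2

end Pool.Agent.Run7.h520.AX
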