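import Pool.Agent.Run7.h148.AX.Stm2

/-! Project AX, piece WDV. -/

set_option autoImplicit false

open MeasureTheory Set Filter Topology
open scoped ENNReal ContDiff FourierTransform

namespace Pool.Agent.Run7.h520.AX

open Pool.Agent.Run7.h148.AX

theorem df {f : E3 → ℝ} (hf : ContDiff ℝ ∞ f) : Differentiable ℝ f :=
  hf.differentiable (by simp)

theorem cd_pd {f : E3 → ℝ} (hf : ContDiff ℝ ∞ f) (j : Fin 3) : ContDiff ℝ ∞ (pd j f) := by
  have h1 : ContDiff ℝ ∞ (fderiv ℝ f) := hf.fderiv_right (by simp)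
  exact h1.clm_apply contDiff_const

theorem cs_pd {f : E3 → ℝ} (hf : HasCompactSupport f) (j : Fin 3) :
    HasCompactSupport (pd j f) :=
  hf.fderiv_apply ℝ (EuclideanSpace.single j 1)

theorem pd_add {f g : E3 → ℝ} (hf : ContDiff ℝ ∞ f) (hg : ContDiff ℝ ∞ g) (j : Fin 3) (x : E3) :
    pd j (fun y => f y + g y) x = pd j f x + pd j g x := by
  unfold pd
  rw [fderiv_fun_add (df hf x) (df hg x)]
  rfl

theorem pd_sub {f g : E3 → ℝ} (hf : ContDiff ℝ ∞ f) (hg : ContDiff ℝ ∞ g) (j : Fin 3) (x : E3) :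
    pd j (fun y => f y - g y) x = pd j f x - pd j g x := by
  unfold pd
  rw [fderiv_fun_sub (df hf x) (df hg x)]
  rfl

theorem pd_mul {f g : E3 → ℝ} (hf : ContDiff ℝ ∞ f) (hg : ContDiff ℝ ∞ g) (j : Fin 3) (x : E3) :
    pd j (fun y => f y * g y) x = pd j f x * g x + f x * pd j g x := by
  unfold pd
  rw [fderiv_fun_mul (df hf x) (df hg x)]
  simp only [add_apply, smul_apply, smul_eq_mul]
  ring

theorem pd_cmul {f : E3 → ℝ} (hf : ContDiff ℝ ∞ f) (c : ℝ) (j : Fin 3) (x : E3) :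
    pd j (fun y => c * f y) x = c * pd j f x := by
  unfold pd
  rw [fderiv_const_mul (df hf x)]
  rfl

theorem pd_zero (j : Fin 3) (x : E3) : pd j (fun _ => (0 : ℝ)) x = 0 := by
  unfold pd
  simp

theorem pd_comm {f : E3 → ℝ} (hf : ContDiff ℝ ∞ f) (i j : Fin 3) (x : E3) :
    pd i (pd j f) x = pd j (pd i f) x := by
  have h1 : ContDiff ℝ ∞ (fderiv ℝ f) := hf.fderiv_right (by simp)
  have h2 : Differentiable ℝ (fderiv ℝ f) := h1.differentiable (by simp)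
  have key : ∀ i j : Fin 3, pd i (pd j f) x
      = fderiv ℝ (fderiv ℝ f) x (EuclideanSpace.single i 1) (EuclideanSpace.single j 1) := by
    intro i j
    have h3 := (h2 x).hasFDerivAt.clm_apply
      (hasFDerivAt_const (EuclideanSpace.single j (1 : ℝ)) x)
    unfold pd
    rw [h3.fderiv]
    simp
  rw [key, key]
  have hs : IsSymmSndFDerivAt ℝ f x := by
    apply ContDiffAt.isSymmSndFDerivAt (n := ∞) hf.contDiffAt
    simp only [minSmoothness_of_isRCLikeNormedField]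
    exact WithTop.coe_le_coe.2 le_top
  exact hs.eq _ _

theorem cd_co (j : Fin 3) : ContDiff ℝ ∞ (fun x : E3 => x j) :=
  (contDiff_euclidean.1 contDiff_id) j

theorem cd_cos (a : ℝ) : ContDiff ℝ ∞ (fun x : E3 => Real.cos (a * x 2)) :=
  Real.contDiff_cos.comp (contDiff_const.mul (cd_co 2))

theorem cd_sin (a : ℝ) : ContDiff ℝ ∞ (fun x : E3 => Real.sin (a * x 2)) :=
  Real.contDiff_sin.comp (contDiff_const.mul (cd_co 2))

theorem hf_co (x : E3) : HasFDerivAt (fun x : E3 => x 2) (EuclideanSpace.proj 2 : E3 →L[ℝ] ℝ) x :=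
  (EuclideanSpace.proj 2 : E3 →L[ℝ] ℝ).hasFDerivAt

theorem pd_cos (a : ℝ) (j : Fin 3) (x : E3) :
    pd j (fun x : E3 => Real.cos (a * x 2)) x = if j = 2 then -(a * Real.sin (a * x 2)) else 0 := by
  have h1 : HasFDerivAt (fun x : E3 => Real.cos (a * x 2))
      (-(Real.sin (a * x 2)) • (a • (EuclideanSpace.proj 2 : E3 →L[ℝ] ℝ))) x :=
    ((hf_co x).const_mul a).cos
  unfold pd
  rw [h1.fderiv]
  by_cases h : j = 2
  · subst h
    simp
    ring
  · simp [h, Ne.symm h]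

theorem pd_sin (a : ℝ) (j : Fin 3) (x : E3) :
    pd j (fun x : E3 => Real.sin (a * x 2)) x = if j = 2 then a * Real.cos (a * x 2) else 0 := by
  have h1 : HasFDerivAt (fun x : E3 => Real.sin (a * x 2))
      ((Real.cos (a * x 2)) • (a • (EuclideanSpace.proj 2 : E3 →L[ℝ] ℝ))) x :=
    ((hf_co x).const_mul a).sin
  unfold pd
  rw [h1.fderiv]
  by_cases h : j = 2
  · subst h
    simp
    ring
  · simp [h, Ne.symm h]

/-- divergence -/
noncomputable def dvv (f : Fin 3 → E3 → ℝ) (x : E3) : ℝ := ∑ i, pd i (f i) x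

noncomputable def gc (f : Fin 3 → E3 → ℝ) (k : Fin 3) (x : E3) : ℝ :=
  pd 2 (f k) x - if k = 2 then dvv f x else 0

noncomputable def blc (a : ℝ) (f : Fin 3 → E3 → ℝ) (k : Fin 3) (x : E3) : ℝ :=
  f k x * Real.cos (a * x 2) + a⁻¹ * Real.sin (a * x 2) * gc f k x

noncomputable def bls (a : ℝ) (f : Fin 3 → E3 → ℝ) (k : Fin 3) (x : E3) : ℝ :=
  f k x * Real.sin (a * x 2) - a⁻¹ * Real.cos (a * x 2) * gc f k x

theorem cd_dvv {f : Fin 3 → E3 → ℝ} (hf : ∀ k, ContDiff ℝ ∞ (f k)) : ContDiff ℝ ∞ (dvv f) :=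
  ContDiff.sum fun i _ => cd_pd (hf i) i

theorem cd_gc {f : Fin 3 → E3 → ℝ} (hf : ∀ k, ContDiff ℝ ∞ (f k)) (k : Fin 3) :
    ContDiff ℝ ∞ (gc f k) := by
  unfold gc
  by_cases h : k = 2
  · simp only [h, if_true]
    exact (cd_pd (hf 2) 2).sub (cd_dvv hf)
  · simp only [h, if_false, sub_zero]
    exact cd_pd (hf k) 2

theorem cd_blc (a : ℝ) {f : Fin 3 → E3 → ℝ} (hf : ∀ k, ContDiff ℝ ∞ (f k)) (k : Fin 3) :
    ContDiff ℝ ∞ (blc a f k) :=
  ((hf k).mul (cd_cos a)).add ((contDiff_const.mul (cd_sin a)).mul (cd_gc hf k))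

theorem cd_bls (a : ℝ) {f : Fin 3 → E3 → ℝ} (hf : ∀ k, ContDiff ℝ ∞ (f k)) (k : Fin 3) :
    ContDiff ℝ ∞ (bls a f k) :=
  ((hf k).mul (cd_sin a)).sub ((contDiff_const.mul (cd_cos a)).mul (cd_gc hf k))

theorem cs_gc {f : Fin 3 → E3 → ℝ} (hf : ∀ k, HasCompactSupport (f k)) (k : Fin 3) :
    HasCompactSupport (gc f k) := by
  have h3 : HasCompactSupport (dvv f) := by
    have e : dvv f = fun x => pd 0 (f 0) x + pd 1 (f 1) x + pd 2 (f 2) x := by
      funext x; unfold dvv; rw [Fin.sum_univ_three]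
    rw [e]
    exact ((cs_pd (hf 0) 0).add (cs_pd (hf 1) 1)).add (cs_pd (hf 2) 2)
  unfold gc
  by_cases h : k = 2
  · simp only [h, if_true]
    exact (cs_pd (hf 2) 2).sub h3
  · simp only [h, if_false, sub_zero]
    exact cs_pd (hf k) 2

theorem cs_blc (a : ℝ) {f : Fin 3 → E3 → ℝ} (hf : ∀ k, HasCompactSupport (f k)) (k : Fin 3) :
    HasCompactSupport (blc a f k) :=
  ((hf k).mul_right).add ((cs_gc hf k).mul_left)

theorem cs_bls (a : ℝ) {f : Fin 3 → E3 → ℝ} (hf : ∀ k, HasCompactSupport (f k)) (k : Fin 3) :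
    HasCompactSupport (bls a f k) :=
  ((hf k).mul_right).sub ((cs_gc hf k).mul_left)

theorem dv_gc {f : Fin 3 → E3 → ℝ} (hf : ∀ k, ContDiff ℝ ∞ (f k)) (x : E3) :
    pd 0 (gc f 0) x + pd 1 (gc f 1) x + pd 2 (gc f 2) x = 0 := by
  have e0 : gc f 0 = pd 2 (f 0) := by funext y; simp [gc]
  have e1 : gc f 1 = pd 2 (f 1) := by funext y; simp [gc]
  have e2 : gc f 2 = fun y => pd 2 (f 2) y - dvv f y := by funext y; simp [gc]
  have e3 : dvv f = fun y => (pd 0 (f 0) y + pd 1 (f 1) y) + pd 2 (f 2) y := by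
    funext y; unfold dvv; rw [Fin.sum_univ_three]
  rw [e0, e1, e2, pd_sub (cd_pd (hf 2) 2) (cd_dvv hf), e3,
    pd_add ((cd_pd (hf 0) 0).add (cd_pd (hf 1) 1)) (cd_pd (hf 2) 2),
    pd_add (cd_pd (hf 0) 0) (cd_pd (hf 1) 1), pd_comm (hf 0) 2 0, pd_comm (hf 1) 2 1]
  ring

theorem gc2 {f : Fin 3 → E3 → ℝ} (h2 : ∀ x, f 2 x = 0) (x : E3) : gc f 2 x = -dvv f x := by
  have e : f 2 = fun _ => 0 := funext h2
  simp only [gc, if_true, e, pd_zero]
  ring

theorem dvv3 {f : Fin 3 → E3 → ℝ} (h2 : ∀ x, f 2 x = 0) (x : E3) :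
    dvv f x = pd 0 (f 0) x + pd 1 (f 1) x := by
  have e : f 2 = fun _ => 0 := funext h2
  unfold dvv
  rw [Fin.sum_univ_three, e, pd_zero, add_zero]

theorem pd_blc (a : ℝ) {f : Fin 3 → E3 → ℝ} (hf : ∀ k, ContDiff ℝ ∞ (f k)) (k : Fin 3) (x : E3) :
    pd k (blc a f k) x = pd k (f k) x * Real.cos (a * x 2)
      + f k x * (if k = 2 then -(a * Real.sin (a * x 2)) else 0)
      + (a⁻¹ * (if k = 2 then a * Real.cos (a * x 2) else 0) * gc f k x
        + a⁻¹ * Real.sin (a * x 2) * pd k (gc f k) x) := by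
  have e : blc a f k = fun y => f k y * Real.cos (a * y 2)
      + a⁻¹ * Real.sin (a * y 2) * gc f k y := rfl
  rw [e, pd_add ((hf k).mul (cd_cos a)) ((contDiff_const.mul (cd_sin a)).mul (cd_gc hf k)),
    pd_mul (hf k) (cd_cos a), pd_mul (contDiff_const.mul (cd_sin a)) (cd_gc hf k),
    pd_cmul (cd_sin a), pd_cos, pd_sin]

theorem pd_bls (a : ℝ) {f : Fin 3 → E3 → ℝ} (hf : ∀ k, ContDiff ℝ ∞ (f k)) (k : Fin 3) (x : E3) :
    pd k (bls a f k) x = pd k (f k) x * Real.sin (a * x 2)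
      + f k x * (if k = 2 then a * Real.cos (a * x 2) else 0)
      - (a⁻¹ * (if k = 2 then -(a * Real.sin (a * x 2)) else 0) * gc f k x
        + a⁻¹ * Real.cos (a * x 2) * pd k (gc f k) x) := by
  have e : bls a f k = fun y => f k y * Real.sin (a * y 2)
      - a⁻¹ * Real.cos (a * y 2) * gc f k y := rfl
  rw [e, pd_sub ((hf k).mul (cd_sin a)) ((contDiff_const.mul (cd_cos a)).mul (cd_gc hf k)),
    pd_mul (hf k) (cd_sin a), pd_mul (contDiff_const.mul (cd_cos a)) (cd_gc hf k),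
    pd_cmul (cd_cos a), pd_cos, pd_sin]

theorem dv_blc (a : ℝ) (ha : a ≠ 0) {f : Fin 3 → E3 → ℝ} (hf : ∀ k, ContDiff ℝ ∞ (f k))
    (h2 : ∀ x, f 2 x = 0) (x : E3) : ∑ k, pd k (blc a f k) x = 0 := by
  rw [Fin.sum_univ_three, pd_blc a hf, pd_blc a hf, pd_blc a hf]
  have hd := dv_gc hf x
  have h02 : (0 : Fin 3) ≠ 2 := by decide
  have h12 : (1 : Fin 3) ≠ 2 := by decide
  have e : f 2 = fun _ => 0 := funext h2
  have hz : pd 2 (f 2) x = 0 := by rw [e]; exact pd_zero _ _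
  simp only [h02, h12, if_false, if_true, gc2 h2, dvv3 h2, hz, h2]
  have hd' : pd 2 (gc f 2) x = -(pd 0 (gc f 0) x + pd 1 (gc f 1) x) := by linarith
  rw [hd']
  field_simp
  ring

theorem dv_bls (a : ℝ) (ha : a ≠ 0) {f : Fin 3 → E3 → ℝ} (hf : ∀ k, ContDiff ℝ ∞ (f k))
    (h2 : ∀ x, f 2 x = 0) (x : E3) : ∑ k, pd k (bls a f k) x = 0 := by
  rw [Fin.sum_univ_three, pd_bls a hf, pd_bls a hf, pd_bls a hf]
  have hd := dv_gc hf x
  have h02 : (0 : Fin 3) ≠ 2 := by decide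
  have h12 : (1 : Fin 3) ≠ 2 := by decide
  have e : f 2 = fun _ => 0 := funext h2
  have hz : pd 2 (f 2) x = 0 := by rw [e]; exact pd_zero _ _
  simp only [h02, h12, if_false, if_true, gc2 h2, dvv3 h2, hz, h2]
  have hd' : pd 2 (gc f 2) x = -(pd 0 (gc f 0) x + pd 1 (gc f 1) x) := by linarith
  rw [hd']
  field_simp
  ring

theorem cd_A {A : E3 → E3} (hA : ContDiff ℝ ∞ A) (k : Fin 3) : ContDiff ℝ ∞ (fun x => A x k) :=
  (contDiff_euclidean.1 hA) k

theorem cs_A {A : E3 → E3} (hA : HasCompactSupport A) (k : Fin 3) :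
    HasCompactSupport (fun x => A x k) :=
  hA.comp_left (g := fun v : E3 => v k) rfl

theorem cd_dvA {A : E3 → E3} (hA : ContDiff ℝ ∞ A) : ContDiff ℝ ∞ (dvA A) :=
  ContDiff.sum fun j _ => cd_pd (cd_A hA j) j

theorem cd_FA {A : E3 → E3} (hA : ContDiff ℝ ∞ A) (k : Fin 3) : ContDiff ℝ ∞ (FA A k) :=
  (ContDiff.sum fun j _ => (cd_A hA j).mul (cd_pd (cd_A hA k) j)).sub
    ((cd_dvA hA).mul (cd_A hA k))

theorem cs_FA {A : E3 → E3} (hA : HasCompactSupport A) (k : Fin 3) :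
    HasCompactSupport (FA A k) := by
  have e : FA A k = fun x => (A x 0 * pd 0 (fun y => A y k) x + A x 1 * pd 1 (fun y => A y k) x
      + A x 2 * pd 2 (fun y => A y k) x) - dvA A x * A x k := by
    funext x; unfold FA; rw [Fin.sum_univ_three]
  rw [e]
  exact ((((cs_A hA 0).mul_right).add ((cs_A hA 1).mul_right)).add ((cs_A hA 2).mul_right)).sub
    ((cs_A hA k).mul_left)

theorem FA2 {A : E3 → E3} (h2 : ∀ x, A x 2 = 0) (x : E3) : FA A 2 x = 0 := by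
  have e : (fun y => A y 2) = fun _ => (0 : ℝ) := funext h2
  unfold FA
  simp [e, pd_zero, h2]

variable {ν : ℝ} {A V : E3 → E3}

theorem cd_Hc (hA : ContDiff ℝ ∞ A) (n : ℕ) (t : ℝ) (k : Fin 3) : ContDiff ℝ ∞ (Hc ν A k n t) :=
  contDiff_const.mul (cd_A hA k)

theorem cd_Hs (hA : ContDiff ℝ ∞ A) (hV : ContDiff ℝ ∞ V) (n : ℕ) (t : ℝ) (k : Fin 3) :
    ContDiff ℝ ∞ (Hs ν A V k n t) :=
  contDiff_const.mul ((contDiff_const.mul (cd_pd (cd_A hA k) 2)).add
    (contDiff_const.mul ((cd_A hV 2).mul (cd_A hA k))))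

theorem cd_Hk (hA : ContDiff ℝ ∞ A) (n : ℕ) (t : ℝ) (k : Fin 3) : ContDiff ℝ ∞ (Hk ν A k n t) :=
  contDiff_const.mul (cd_FA hA k)

theorem cs_Hc (hA : HasCompactSupport A) (n : ℕ) (t : ℝ) (k : Fin 3) :
    HasCompactSupport (Hc ν A k n t) :=
  (cs_A hA k).mul_left

theorem cs_Hs (hA : HasCompactSupport A) (n : ℕ) (t : ℝ) (k : Fin 3) :
    HasCompactSupport (Hs ν A V k n t) := by
  have h1 : HasCompactSupport (fun x => ta ν n t * pd 2 (fun y => A y k) x +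
      1 / (4 * ν) * Real.exp (-(2 * ta ν n t)) * (V x 2 * A x k)) :=
    ((cs_pd (cs_A hA k) 2).mul_left).add (((cs_A hA k).mul_left).mul_left)
  exact h1.mul_left

theorem cs_Hk (hA : HasCompactSupport A) (n : ℕ) (t : ℝ) (k : Fin 3) :
    HasCompactSupport (Hk ν A k n t) :=
  (cs_FA hA k).mul_left

theorem ww_eq (n : ℕ) (t : ℝ) (k : Fin 3) : ww ν A V k n t = fun x =>
    (blc ((1 : ℕ) * NN n) (fun k => Hc ν A k n t) k x
      + bls ((1 : ℕ) * NN n) (fun k => Hs ν A V k n t) k x)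
      + blc ((2 : ℕ) * NN n) (fun k => Hk ν A k n t) k x := rfl

theorem NN_pos (n : ℕ) : 0 < NN n := by unfold NN; positivity

theorem t_WDV : S_WDV := by
  intro ν A V hν hA hV n t
  obtain ⟨hA1, hA2, hA3, -⟩ := hA
  have c1 : ∀ k, ContDiff ℝ ∞ (blc ((1 : ℕ) * NN n) (fun k => Hc ν A k n t) k) :=
    cd_blc _ (cd_Hc hA1 n t)
  have c2 : ∀ k, ContDiff ℝ ∞ (bls ((1 : ℕ) * NN n) (fun k => Hs ν A V k n t) k) :=
    cd_bls _ (cd_Hs hA1 hV n t)
  have c3 : ∀ k, ContDiff ℝ ∞ (blc ((2 : ℕ) * NN n) (fun k => Hk ν A k n t) k) :=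
    cd_blc _ (cd_Hk hA1 n t)
  have hN := NN_pos n
  refine ⟨fun x => ?_, ?_, ?_⟩
  · have e : ∀ k, pd k (ww ν A V k n t) x
        = pd k (blc ((1 : ℕ) * NN n) (fun k => Hc ν A k n t) k) x
        + pd k (bls ((1 : ℕ) * NN n) (fun k => Hs ν A V k n t) k) x
        + pd k (blc ((2 : ℕ) * NN n) (fun k => Hk ν A k n t) k) x := by
      intro k
      rw [ww_eq, pd_add ((c1 k).add (c2 k)) (c3 k), pd_add (c1 k) (c2 k)]
    simp only [e, Finset.sum_add_distrib]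
    have e2 : (fun y => A y 2) = fun _ => (0 : ℝ) := funext hA3
    rw [dv_blc _ (by positivity) (cd_Hc hA1 n t) (fun x => by simp [Hc, hA3]),
      dv_bls _ (by positivity) (cd_Hs hA1 hV n t) (fun x => by simp [Hs, hA3, e2, pd_zero]),
      dv_blc _ (by positivity) (cd_Hk hA1 n t) (fun x => by simp [Hk, FA2 hA3])]
    ring
  · rw [contDiff_euclidean]
    intro k
    change ContDiff ℝ ∞ (ww ν A V k n t)
    rw [ww_eq]
    exact ((c1 k).add (c2 k)).add (c3 k)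
  · have hk : ∀ k, HasCompactSupport (ww ν A V k n t) := by
      intro k
      rw [ww_eq]
      exact ((cs_blc _ (cs_Hc hA2 n t) k).add (cs_bls _ (cs_Hs hA2 n t) k)).add
        (cs_blc _ (cs_Hk hA2 n t) k)
    apply HasCompactSupport.intro (isCompact_iUnion fun k => (hk k))
    intro x hx
    simp only [mem_iUnion, not_exists] at hx
    have h0 : (fun k => ww ν A V k n t x) = 0 :=
      funext fun k => image_eq_zero_of_notMem_tsupport (hx k)
    unfold wf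
    rw [h0]
    rfl

end Pool.Agent.Run7.h520.AX
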